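import Pool.Agent.Lib.BMR.ZeroOne

/-!
MP_8b264c_pr: all or nothing for conformal removability of the planar Brownian trace.
-/

open MeasureTheory Set ProbabilityTheory Pool.Agent.BMR

/-- Either for every planar Brownian motion almost surely all subsets of `B[0,1]` are removable, or
for every planar Brownian motion almost surely, for all `0 ≤ s < t ≤ 1` at once, no set containing
`B[s,t]` is removable. -/
theorem Pool.Agent.Results.MP_8b264c_pr.AllOrNothing.result :
    (∀ (Ω : Type) [MeasurableSpace Ω] (P : Measure Ω) [IsProbabilityMeasure P] (B : ℝ → Ω → ℂ),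
      IsPBM P B → ∀ᵐ ω ∂P, ∀ K ⊆ (fun u => B u ω) '' Set.Icc (0 : ℝ) 1, Removable K) ∨
    (∀ (Ω : Type) [MeasurableSpace Ω] (P : Measure Ω) [IsProbabilityMeasure P] (B : ℝ → Ω → ℂ),
      IsPBM P B → ∀ᵐ ω ∂P, ∀ s t : ℝ, 0 ≤ s → s < t → t ≤ 1 →
        ∀ K : Set ℂ, (fun u => B u ω) '' Set.Icc s t ⊆ K → ¬ Removable K) :=
  dichotomy
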