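import Pool.Agent.Lib.BMR.Pt2

/-!
MP_8b264c_pr: the planar Brownian trace is removable for homeomorphisms with linear dilatation
`o(√(log 1/r))`, pointwise, along prescribed scales, off a set of sigma-finite length.
-/

open MeasureTheory Set ProbabilityTheory Pool.Agent.BMR

/-- For every planar Brownian motion and every infinite set `Λ` of scales, almost surely every
homeomorphism of the plane which is holomorphic off `B[0,1]` and, at the points of `B[0,1]` off a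
set of sigma-finite length, has linear dilatation `o(√N)` at the scales `2 ^ (-N)`, `N ∈ Λ`, is
holomorphic. -/
theorem Pool.Agent.Results.MP_8b264c_pr.LinearDilatation.result
    (Ω : Type) [MeasurableSpace Ω] (P : Measure Ω) [IsProbabilityMeasure P] (B : ℝ → Ω → ℂ)
    (hB : IsPBM P B) (Λ : Set ℕ) (hΛ : Λ.Infinite) :
    ∀ᵐ ω ∂P, ∀ f : ℂ ≃ₜ ℂ,
      DifferentiableOn ℂ (⇑f) ((fun t => B t ω) '' Set.Icc (0 : ℝ) 1)ᶜ →
      ∀ T : ℕ → Set ℂ, (∀ j, Measure.hausdorffMeasure 1 (T j) ≠ ⊤) →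
      (∀ x ∈ ((fun t => B t ω) '' Set.Icc (0 : ℝ) 1) \ ⋃ j, T j, ∀ ε : ℝ, 0 < ε →
        ∃ j : ℕ, ∀ N ∈ Λ, j ≤ N → ∀ r : ℝ, 1 / 2 ^ (N + 1) ≤ r → r ≤ 2 / 2 ^ N →
          ∀ y z : ℂ, ‖y - x‖ ≤ r → r ≤ ‖z - x‖ →
            ‖f y - f x‖ ≤ ε * Real.sqrt (N : ℝ) * ‖f z - f x‖) →
      Differentiable ℂ (⇑f) := by
  filter_upwards [hB.pt Λ hΛ] with ω hω
  intro f hd T hT hs
  exact hω f hd T hT hs
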