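import Pool.Agent.Lib.MP_8b264c_pr.QV2.MC3
import Pool.Agent.Lib.MP_8b264c_pr.QV.IND
import Pool.Agent.Lib.MP_8b264c_pr.QV.FUB
import Pool.Agent.Lib.MP_8b264c_pr.QV.DEN
import Pool.Agent.Lib.MP_8b264c_pr.QV.LOW
import Pool.Agent.Lib.MP_8b264c_pr.QV.MOM
import Pool.Agent.Lib.MP_8b264c_pr.QV.TWL
import Pool.Agent.Lib.MP_8b264c_pr.QV.TWU
import Pool.Agent.Lib.MP_8b264c_pr.QV.TWO
import Pool.Agent.Lib.MP_8b264c_pr.QV.DEC
import Pool.Agent.Lib.MP_8b264c_pr.QV.PAI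
import Pool.Agent.Lib.MP_8b264c_pr.QV.BAD
import Pool.Agent.Lib.MP_8b264c_pr.QV.OSC
import Pool.Agent.Lib.MP_8b264c_pr.QV.VAA
import Pool.Agent.Lib.MP_8b264c_pr.QV.VAD
import Pool.Agent.Lib.MP_8b264c_pr.QV.EXT
import Pool.Agent.Lib.MP_8b264c_pr.QV.CEL
import Pool.Agent.Lib.MP_8b264c_pr.QV.LON
import Pool.Agent.Lib.MP_8b264c_pr.QV.DET
import Pool.Agent.Lib.MP_8b264c_pr.QV.ASA
import Pool.Agent.Lib.MP_8b264c_pr.QV.ASD
import Pool.Agent.Lib.MP_8b264c_pr.QV.CRI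
import Pool.Agent.Lib.MP_8b264c_pr.QV2.CRS
import Pool.Agent.Lib.MP_8b264c_pr.QV2.CIR
import Pool.Agent.Lib.MP_8b264c_pr.QV2.ROU
import Pool.Agent.Lib.MP_8b264c_pr.QV2.ENC
import Pool.Agent.Lib.MP_8b264c_pr.QV2.MSR
import Pool.Agent.Lib.MP_8b264c_pr.QV2.MKV
import Pool.Agent.Lib.MP_8b264c_pr.QV2.STA
import Pool.Agent.Lib.MP_8b264c_pr.QV2.OSU
import Pool.Agent.Lib.MP_8b264c_pr.QV2.TUB
import Pool.Agent.Lib.MP_8b264c_pr.QV2.CMP
import Pool.Agent.Lib.MP_8b264c_pr.QV2.HUB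
import Pool.Agent.Lib.MP_8b264c_pr.QV2.FE1
import Pool.Agent.Lib.MP_8b264c_pr.QV2.FE2
import Pool.Agent.Lib.MP_8b264c_pr.QV2.FEW
import Pool.Agent.Lib.MP_8b264c_pr.QV2.WIN
import Pool.Agent.Lib.MP_8b264c_pr.QV2.CNB
import Pool.Agent.Lib.MP_8b264c_pr.QV2.ASB
import Pool.Agent.Lib.MP_8b264c_pr.QV2.DE2
import Pool.Agent.Lib.MP_8b264c_pr.QV2.ASE

/-!
MP_8b264c_pr: conformal rigidity of the planar Brownian path. Almost surely every homeomorphism of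
the plane which is holomorphic off the trace `B[0,1]` and whose image path `f ∘ B` has, near each
time off an exceptional set, dyadic quadratic variation `O(n ^ γ)` for some `γ < 2`, is
holomorphic. In particular this holds if `f ∘ B` is, near each such time, a monotone time change of
a path with modulus of continuity `√δ (log 1/δ) ^ b` with `b < 1` (Brownian paths: `b = 1/2`), and
for every homeomorphism which is holomorphic off the trace and maps the Brownian path, piece by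
piece, to a time change of a Brownian path, for an arbitrary coupling of the two Brownian motions.
-/

open MeasureTheory Set ProbabilityTheory Pool.Agent.BMR Pool.Agent.Lib.MP_8b264c_pr.QV
  Pool.Agent.Lib.MP_8b264c_pr.QV2

/-- Conformal rigidity of the planar Brownian path. -/
theorem Pool.Agent.Results.MP_8b264c_pr.PathRigidity.result :
    (∀ (Ω : Type) [MeasurableSpace Ω] (P : Measure Ω) [IsProbabilityMeasure P] (B : ℝ → Ω → ℂ),
      IsPBM P B → ∀ᵐ ω ∂P, ∀ (f : ℂ ≃ₜ ℂ) (T : Set ℝ) (S : ℕ → Set ℂ),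
        DifferentiableOn ℂ (⇑f) ((fun t => B t ω) '' Icc (0 : ℝ) 1)ᶜ →
        (∀ j, Measure.hausdorffMeasure 1 (S j) ≠ ⊤) →
        (fun t => B t ω) '' (T ∩ Icc (0 : ℝ) 1) ⊆ ⋃ j, S j →
        (∀ r ∈ Icc (0 : ℝ) 1, r ∉ T → ∃ ε > 0, ∃ γ < (2 : ℝ), ∃ C : ℝ, ∀ n : ℕ,
          ∑ j ∈ (Finset.range (4 ^ n)).filter (fun j : ℕ => |(j : ℝ) / 4 ^ n - r| ≤ ε),
            (Metric.diam ((fun t => f (B t ω)) ''
              Icc ((j : ℝ) / 4 ^ n) (((j : ℝ) + 1) / 4 ^ n))) ^ 2 ≤ C * ((n : ℝ) + 1) ^ γ) →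
        Differentiable ℂ (⇑f)) ∧
    (∀ (Ω : Type) [MeasurableSpace Ω] (P : Measure Ω) [IsProbabilityMeasure P] (B : ℝ → Ω → ℂ),
      IsPBM P B → ∀ᵐ ω ∂P, ∀ (f : ℂ ≃ₜ ℂ) (T : Set ℝ) (S : ℕ → Set ℂ),
        DifferentiableOn ℂ (⇑f) ((fun t => B t ω) '' Icc (0 : ℝ) 1)ᶜ →
        (∀ j, Measure.hausdorffMeasure 1 (S j) ≠ ⊤) →
        (fun t => B t ω) '' (T ∩ Icc (0 : ℝ) 1) ⊆ ⋃ j, S j →
        (∀ r ∈ Icc (0 : ℝ) 1, r ∉ T → ∃ ε > 0, ∃ b < (1 : ℝ), ∃ C : ℝ,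
          ∃ (y : ℝ → ℂ) (τ : ℝ → ℝ),
            (∀ s ∈ Icc (0 : ℝ) 1, ∀ t ∈ Icc (0 : ℝ) 1, s < t →
              ‖y t - y s‖ ≤ C * Real.sqrt (t - s) * (1 + Real.log (1 / (t - s))) ^ b) ∧
            (∀ t ∈ Icc (0 : ℝ) 1 ∩ Icc (r - ε) (r + ε),
              τ t ∈ Icc (0 : ℝ) 1 ∧ f (B t ω) = y (τ t)) ∧
            (MonotoneOn τ (Icc (0 : ℝ) 1 ∩ Icc (r - ε) (r + ε)) ∨
              AntitoneOn τ (Icc (0 : ℝ) 1 ∩ Icc (r - ε) (r + ε)))) →
        Differentiable ℂ (⇑f)) ∧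
    (∀ (Ω : Type) [MeasurableSpace Ω] (P : Measure Ω) [IsProbabilityMeasure P]
      (B Y : ℝ → Ω → ℂ), IsPBM P B → (IsPBM P Y ∨ MomP P Y) →
      ∀ᵐ ω ∂P, ∀ (f : ℂ ≃ₜ ℂ) (τ : ℝ → ℝ) (T : Set ℝ) (S : ℕ → Set ℂ),
        DifferentiableOn ℂ (⇑f) ((fun t => B t ω) '' Icc (0 : ℝ) 1)ᶜ →
        (∀ j, Measure.hausdorffMeasure 1 (S j) ≠ ⊤) →
        (fun t => B t ω) '' (T ∩ Icc (0 : ℝ) 1) ⊆ ⋃ j, S j →
        (∀ r ∈ Icc (0 : ℝ) 1, r ∉ T → ∃ ε > 0,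
          (∀ t ∈ Icc (0 : ℝ) 1 ∩ Icc (r - ε) (r + ε),
            τ t ∈ Icc (0 : ℝ) 1 ∧ f (B t ω) = Y (τ t) ω) ∧
          (MonotoneOn τ (Icc (0 : ℝ) 1 ∩ Icc (r - ε) (r + ε)) ∨
            AntitoneOn τ (Icc (0 : ℝ) 1 ∩ Icc (r - ε) (r + ε)))) →
        Differentiable ℂ (⇑f)) := by
  have hTWO := specTWO specIND (specTWL specIND specFUB specLOW) (specTWU specIND specFUB specDEN)
  have hDEC := specDEC specIND specFUB specMOM hTWO
  have hPAI := specPAI specIND specFUB specDEN hDEC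
  have hBAD := specBAD specIND specDEN hPAI
  have hASA := specASA specIND specMOM hBAD specOSC
  have hASD := specASD (specDET specEXT specCEL specLON)
  have hSEG := specSEG hASA hASD
  -- the hubs
  have hMKV := specMKV specIND specFUB
  have hTUB := specTUB specIND specLOW specOSU
  have hHUB := specHUB specMSR hMKV specLOW hTUB
  have hFE2 := specFE2 specMSR hMKV (specSTA specMSR) specCMP hHUB
  have hFEW := specFEW specMSR hMKV specFE1 hFE2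
  have hWIN := specWIN specMSR hMKV specMOM hFEW
  have hASB := specASB (specCNB hWIN)
  have hASE := specASE (specDE2 (specROU (specCIR specCRS)) specENC)
  have hSG2 := specSG2 specMOM (specVAA specOSC) hASB hASE
  have hLA2 := specLA2 hSEG hSG2 specCRI
  have hLB := specLB (specLA_of hLA2) (specVAA specOSC) specVAD
  refine ⟨hLA2, specMC3 hLA2, ?_⟩
  intro Ω _ P _ B Y hB hY
  refine hLB Ω P B Y hB ?_
  rcases hY with hY | hY
  · exact (specMOM Ω P Y hY).1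
  · exact hY
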