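import Pool.Agent.Lib.BMR.Area2

/-!
MP_8b264c_pr: the planar Brownian trace is removable for functions with small second differences.
-/

open MeasureTheory Set ProbabilityTheory Pool.Agent.BMR

/-- For every planar Brownian motion, almost surely every continuous function which is holomorphic
off `B[0,1]` and has second differences `o(|h| √(log 1/|h|))`, locally uniformly, is entire. -/
theorem Pool.Agent.Results.MP_8b264c_pr.SecondDifferences.result
    (Ω : Type) [MeasurableSpace Ω] (P : Measure Ω) [IsProbabilityMeasure P] (B : ℝ → Ω → ℂ)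
    (hB : IsPBM P B) :
    ∀ᵐ ω ∂P, ∀ f : ℂ → ℂ, Continuous f →
      DifferentiableOn ℂ f ((fun t => B t ω) '' Set.Icc (0 : ℝ) 1)ᶜ →
      (∀ R ε : ℝ, 0 < ε → ∃ δ > 0, ∀ z h : ℂ, ‖z‖ ≤ R → 0 < ‖h‖ → ‖h‖ < δ →
        ‖f (z + h) + f (z - h) - 2 * f z‖ ≤ ε * (‖h‖ * Real.sqrt (Real.log (1 / ‖h‖)))) →
      Differentiable ℂ f := by
  filter_upwards [hB.entire] with ω hω
  intro f hf hd hs
  exact hω _ subset_rfl f hf hd hs
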